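import Pool.Agent.helper58.FI4E.Spec

/-!
# Row fi4e:DSZ (MP_baa4d7_al)
-/

set_option autoImplicit false

namespace Pool.Agent.FI4E

open Pool.Agent.helper58.DC Pool.Agent.DI Pool.Agent.GR Pool.Agent.OB Pool.Agent.DR Pool.Agent.FI Pool.Agent.FI3 Pool.Agent.FI4 Pool.Agent.FI4I

theorem DSZ (hOMX : OMX_stmt) (hOMR : OMR_stmt) (hDFA : DFA_stmt) (hTG4E : TG4E_stmt) (hMN4E : MN4E_stmt) (hBAA : BAA_stmt) : DSZ_stmt := by
  intro p M hS G E A _ _ _ _ _ X hOp D x θ χ hRt hHyp hD a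
  obtain ⟨e, rfl⟩ := X.proj_surjective a
  have hχ : χ ∈ Irr G := hRt.chi
  have h1 := hOMX p M hS G E A X hOp χ hχ e
  have hG : (Nat.card G : ℂ) ≠ 0 := Nat.cast_ne_zero.2 Nat.card_pos.ne'
  have h0 : Om p M χ ⊥ (X.act e) = 0 := by
    by_cases hst : Stb M χ (X.act e)
    · obtain ⟨g, hg⟩ := hDFA p M hS G D x θ χ hRt (X.act e) hst
      rw [← (hOMR p M hS G χ ⊥ (X.act e)).1 g]
      have hb := hBAA G M p (X.act e) ⊥ ⊥ ⊥ χ χ χ
      have hst' : Stb M χ (al (X.act e) g) := ((hb.2.2.2.2.2.2.2.2.2.2 g hχ).2).2 hst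
      rw [hTG4E p M hS G D x θ χ hRt hHyp ⊥ hOp bot_le (Ne.symm hD) _ hg hst'
        (fun G' _ _ _ D' x' θ' χ' h2 h3 β h4 h5 => hMN4E p M hS G' D' x' θ' χ' h2 h3 β h4 h5),
        hMN4E p M hS G D x θ χ hRt hHyp _ hg hst', sub_self, mul_zero]
    · exact (hOMR p M hS G χ ⊥ (X.act e)).2 hχ hst
  rw [h0] at h1
  have h2 := (mul_eq_zero.1 h1).resolve_left hG
  exact_mod_cast h2

end Pool.Agent.FI4E
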