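import Pool.Agent.helper70.FI4E.SpecK

/-!
# Row fi4e:EJN (MP_baa4d7_al)
-/

set_option autoImplicit false

namespace Pool.Agent.FI4E

open Pool.Agent.helper58.DC Pool.Agent.DI Pool.Agent.GR Pool.Agent.OB Pool.Agent.DR Pool.Agent.FI Pool.Agent.FI3 Pool.Agent.FI4

theorem EJN : EJN_stmt := by
  intro p n hp h3 hn hS m hm
  have key : ∀ l : ℕ, l.Prime → l ∣ n → l + 1 < p := by
    intro l hl hln
    have h1 := hS l hl hln
    have h2 := hl.two_le
    rcases hp.eq_two_or_odd with h5 | h5
    · omega
    rcases hl.eq_two_or_odd with h6 | h6 <;> omega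
  constructor
  · intro h
    have := hS p hp (h.trans hm)
    omega
  · intro h
    unfold Pool.Agent.MAPW.J2 at h
    rw [Prime.dvd_finsetProd_iff hp.prime] at h
    obtain ⟨l, hl, h⟩ := h
    have hlp := Nat.prime_of_mem_primeFactors hl
    have hln : l ∣ n := (Nat.dvd_of_mem_primeFactors hl).trans hm
    have hk := key l hlp hln
    have h2 := hlp.two_le
    rcases (Nat.Prime.dvd_mul hp).1 h with h | h
    · exact absurd (Nat.le_of_dvd hlp.pos (hp.dvd_of_dvd_pow h)) (by omega)
    · have hsq : l ^ 2 - 1 = (l + 1) * (l - 1) := by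
        have := Nat.sq_sub_sq l 1
        rwa [one_pow] at this
      rw [hsq] at h
      rcases (Nat.Prime.dvd_mul hp).1 h with h | h
      · exact absurd (Nat.le_of_dvd (by omega) h) (by omega)
      · exact absurd (Nat.le_of_dvd (by omega) h) (by omega)

end Pool.Agent.FI4E
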